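import Pool.Agent.Mane.Sph

open Set Real
open scoped InnerProductSpace ContDiff Topology Manifold

namespace Pool.Agent.Mane

lemma hasDerivAt_LL_line (q v : E4) :
    HasDerivAt (fun s : ℝ => LL q (s • v)) ⟪LLv q v, v⟫_ℝ 1 := by
  have h1 : HasDerivAt (fun s : ℝ => (q, s • v)) (0, v) 1 := by
    have := (hasDerivAt_const (1 : ℝ) q).prodMk ((hasDerivAt_id (1 : ℝ)).smul_const v)
    refine this.congr_deriv ?_
    simp
  have h2 : HasFDerivAt (fun z : E4 × E4 => LL z.1 z.2)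
      ((innerSL ℝ (LLq q v)).comp (ContinuousLinearMap.fst ℝ E4 E4)
      + (innerSL ℝ (LLv q v)).comp (ContinuousLinearMap.snd ℝ E4 E4)) (q, (1 : ℝ) • v) := by
    rw [one_smul]; exact hasFDerivAt_LL q v
  have h3 := h2.comp_hasDerivAt (1 : ℝ) h1
  refine h3.congr_deriv ?_
  simp

lemma energy_Lag (p : TangentBundle (𝓡 3) S3) :
    energy (E := E3) Lag p = ⟪LLv (iota p.1) (dio p), dio p⟫_ℝ - LL (iota p.1) (dio p) := by
  unfold energy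
  have h1 : (fun s : ℝ => Lag (scale s p)) = fun s => LL (iota p.1) (s • dio p) := by
    funext s
    have h2 : dio (scale s p) = s • dio p := map_smul (dil p.1) s (vpart p)
    rw [Lag, h2]
    rfl
  rw [h1, (hasDerivAt_LL_line _ _).deriv]
  rfl

lemma energy_nonneg (p : TangentBundle (𝓡 3) S3) : 0 ≤ energy (E := E3) Lag p := by
  rw [energy_Lag]
  set q := iota p.1
  set v := dio p
  have hD := den_pos q
  have h2 : ⟪Xi q, v⟫_ℝ ^ 2 ≤ ‖Xi q‖ ^ 2 * ‖v‖ ^ 2 := by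
    have := abs_real_inner_le_norm (Xi q) v
    rw [← sq_abs, ← mul_pow]
    exact pow_le_pow_left₀ (abs_nonneg _) this 2
  rw [LLv, LL, inner_sub_left, real_inner_smul_left, real_inner_self_eq_norm_sq]
  have h3 : ‖v‖ ^ 2 - 800 * (⟪Xi q, v⟫_ℝ - 1) / (1 + 800 * ‖Xi q‖ ^ 2) * ⟪Xi q, v⟫_ℝ -
      (‖v‖ ^ 2 / 2 - 400 * (⟪Xi q, v⟫_ℝ - 1) ^ 2 / (1 + 800 * ‖Xi q‖ ^ 2)) =
      ((1 + 800 * ‖Xi q‖ ^ 2) * ‖v‖ ^ 2 - 800 * ⟪Xi q, v⟫_ℝ ^ 2 + 800) /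
        (2 * (1 + 800 * ‖Xi q‖ ^ 2)) := by
    field_simp
    ring
  rw [h3]
  apply div_nonneg _ (by positivity)
  nlinarith [sq_nonneg ‖v‖]

section Curve

variable {g : ℝ → E4} (hg1 : ∀ t, ‖g t‖ = 1) (hg : ContDiff ℝ ∞ g)

/-- The curve in the sphere given by a curve `g` of unit vectors. -/
def toS (g : ℝ → E4) (hg1 : ∀ t, ‖g t‖ = 1) (t : ℝ) : S3 :=
  ⟨g t, by rw [mem_sphere_zero_iff_norm]; exact hg1 t⟩

lemma iota_toS (t : ℝ) : iota (toS g hg1 t) = g t := rfl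

include hg in
lemma contMDiff_toS : ContMDiff 𝓘(ℝ, ℝ) (𝓡 3) ∞ (toS g hg1) := by
  have h1 : ContMDiff 𝓘(ℝ, ℝ) 𝓘(ℝ, E4) ∞ g := hg.contMDiff
  exact h1.codRestrict_sphere (n := 3) (fun t => by rw [mem_sphere_zero_iff_norm]; exact hg1 t)

include hg in
lemma dio_velocity {T t : ℝ} (hT : 0 < T) (ht : t ∈ Icc 0 T) :
    dio (velocity E3 (toS g hg1) T t) = deriv g t := by
  have hud : UniqueMDiffWithinAt 𝓘(ℝ, ℝ) (Icc 0 T) t :=
    (uniqueDiffOn_Icc hT t ht).uniqueMDiffWithinAt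
  have h1 : MDifferentiableAt 𝓘(ℝ, ℝ) (𝓡 3) (toS g hg1) t :=
    (contMDiff_toS hg1 hg).mdifferentiableAt (by simp)
  have h2 : MDifferentiableAt (𝓡 3) 𝓘(ℝ, E4) iota (toS g hg1 t) :=
    (contMDiff_iota (m := ∞)).mdifferentiableAt (by simp)
  have h3 : mfderivWithin 𝓘(ℝ, ℝ) (𝓡 3) (toS g hg1) (Icc 0 T) t =
      mfderiv 𝓘(ℝ, ℝ) (𝓡 3) (toS g hg1) t := mfderivWithin_eq_mfderiv hud h1
  have h4 := mfderiv_comp t h2 h1
  have h5 : iota ∘ toS g hg1 = g := rfl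
  rw [h5] at h4
  have h6 : dio (velocity E3 (toS g hg1) T t) = (mfderiv (𝓡 3) 𝓘(ℝ, E4) iota (toS g hg1 t))
      (mfderiv 𝓘(ℝ, ℝ) (𝓡 3) (toS g hg1) t (1 : ℝ)) := by
    rw [← h3]; rfl
  rw [h6]
  have h7 : (mfderiv (𝓡 3) 𝓘(ℝ, E4) iota (toS g hg1 t))
      (mfderiv 𝓘(ℝ, ℝ) (𝓡 3) (toS g hg1) t (1 : ℝ)) = mfderiv 𝓘(ℝ, ℝ) 𝓘(ℝ, E4) g t (1 : ℝ) := by
    rw [h4]; rfl
  rw [h7, mfderiv_eq_fderiv]
  rfl

end Curve

section Chart

variable (x₀ : S3)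

lemma chart_target_univ : (extChartAt (𝓡 3) x₀).target = univ := by
  rw [extChartAt_target]
  have h : (chartAt E3 x₀).target = univ := stereographic'_target (n := 3) (E := E4) (-x₀)
  rw [h]
  simp

/-- inverse chart -/
noncomputable def psi (z : E3) : S3 := (extChartAt (𝓡 3) x₀).symm z

/-- inverse chart as a map to `E4` -/
noncomputable def Psi (z : E3) : E4 := iota (psi x₀ z)

lemma contMDiff_psi : ContMDiff 𝓘(ℝ, E3) (𝓡 3) ∞ (psi x₀) := by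
  have h := contMDiffOn_extChartAt_symm (I := 𝓡 3) (n := ∞) x₀
  rw [chart_target_univ, contMDiffOn_univ] at h
  exact h

lemma contDiff_Psi : ContDiff ℝ ∞ (Psi x₀) := by
  have h : ContMDiff 𝓘(ℝ, E3) 𝓘(ℝ, E4) ∞ (iota ∘ psi x₀) := contMDiff_iota.comp (contMDiff_psi x₀)
  exact h.contDiff

lemma fderiv_Psi (z v : E3) : fderiv ℝ (Psi x₀) z v =
    dil (psi x₀ z) (mfderiv 𝓘(ℝ, E3) (𝓡 3) (psi x₀) z v) := by
  have h1 : MDifferentiableAt 𝓘(ℝ, E3) (𝓡 3) (psi x₀) z :=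
    (contMDiff_psi x₀).mdifferentiableAt (by simp)
  have h2 : MDifferentiableAt (𝓡 3) 𝓘(ℝ, E4) iota (psi x₀ z) :=
    (contMDiff_iota (m := ∞)).mdifferentiableAt (by simp)
  have h4 := mfderiv_comp z h2 h1
  have h5 : iota ∘ psi x₀ = Psi x₀ := rfl
  rw [h5, mfderiv_eq_fderiv] at h4
  rw [h4]
  rfl

lemma localLagrangian_eq (z v : E3) :
    localLagrangian (E := E3) Lag x₀ z v = LL (Psi x₀ z) (fderiv ℝ (Psi x₀) z v) := by
  rw [fderiv_Psi]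
  rfl

lemma inner_Psi_fderiv (z v : E3) : ⟪Psi x₀ z, fderiv ℝ (Psi x₀) z v⟫_ℝ = 0 := by
  rw [fderiv_Psi]
  exact inner_iota_dil _ _

end Chart

end Pool.Agent.Mane
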