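import Mathlib

open Set MeasureTheory
open scoped Manifold ContDiff Topology

namespace Pool.Agent.Mane

section Defs

/-! Below, `M` is a manifold without boundary modelled on the finite-dimensional real vector space
`E` (in the result, `E` is Euclidean 3-space and `M` is the sphere `S³`). The tangent space
`TangentSpace 𝓘(ℝ, E) x` of Mathlib is, by definition, the vector space `E`. -/

variable {E : Type} [NormedAddCommGroup E] [NormedSpace ℝ E]
  {M : Type} [TopologicalSpace M] [ChartedSpace E M]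

/-- The tangent vector `v` at the point `x`, as a point of the tangent bundle. -/
def tvec (x : M) (v : TangentSpace 𝓘(ℝ, E) x) : TangentBundle 𝓘(ℝ, E) M := ⟨x, v⟩

/-- `q` is (the quadratic form of) a smooth Riemannian metric on `M`: a smooth function on the
tangent bundle whose restriction to each tangent space is a positive definite quadratic form. -/
structure IsRiemannianForm [IsManifold 𝓘(ℝ, E) ∞ M] (q : TangentBundle 𝓘(ℝ, E) M → ℝ) :
    Prop where
  contMDiff : ContMDiff 𝓘(ℝ, E).tangent 𝓘(ℝ, ℝ) ∞ q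
  quadratic : ∀ x : M, ∃ Q : QuadraticForm ℝ E, ∀ v : E, q (tvec x v) = Q v
  pos : ∀ (x : M) (v : E), v ≠ 0 → 0 < q (tvec x v)

/-- A `C²` Lagrangian on `M` which is convex (its fibrewise Hessian is positive definite) and
superlinear (`L (x, v) / |v| → ∞` as `|v| → ∞`, uniformly in `x`, for some Riemannian metric). -/
structure IsTonelli [IsManifold 𝓘(ℝ, E) ∞ M] (L : TangentBundle 𝓘(ℝ, E) M → ℝ) : Prop where
  contMDiff : ContMDiff 𝓘(ℝ, E).tangent 𝓘(ℝ, ℝ) 2 L
  convex : ∀ (x : M) (v w : E), w ≠ 0 →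
    0 < iteratedDeriv 2 (fun s : ℝ => L (tvec x (v + s • w : E))) 0
  superlinear : ∃ q : TangentBundle 𝓘(ℝ, E) M → ℝ, IsRiemannianForm q ∧
    ∀ K : ℝ, ∃ R : ℝ, ∀ p, R ≤ √(q p) → K * √(q p) ≤ L p

/-- The vector part `v` of the point `(x, v)` of the tangent bundle. -/
def vpart (p : TangentBundle 𝓘(ℝ, E) M) : E := p.2

/-- The tangent vector `s • p`. -/
def scale (s : ℝ) (p : TangentBundle 𝓘(ℝ, E) M) : TangentBundle 𝓘(ℝ, E) M :=
  tvec p.1 (s • vpart p : E)

/-- The energy `E (x, v) = ∂L/∂v (x, v) · v - L (x, v)`. -/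
noncomputable def energy (L : TangentBundle 𝓘(ℝ, E) M → ℝ) (p : TangentBundle 𝓘(ℝ, E) M) : ℝ :=
  deriv (fun s : ℝ => L (scale s p)) 1 - L p

variable (E) in
/-- The velocity `(γ t, γ' t)` of a curve `γ` defined on `[0, T]`. -/
noncomputable def velocity (γ : ℝ → M) (T t : ℝ) : TangentBundle 𝓘(ℝ, E) M :=
  tvec (γ t) (mfderivWithin 𝓘(ℝ, ℝ) 𝓘(ℝ, E) γ (Icc 0 T) t (1 : ℝ))

/-- The Lagrangian `L` in the coordinates `(x, v)` given by the chart `φ` of `M` at `x₀`, i.e.
`L` at the image of the tangent vector `v` at `x` under the differential of `φ⁻¹`. -/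
noncomputable def localLagrangian (L : TangentBundle 𝓘(ℝ, E) M → ℝ) (x₀ : M) (x v : E) : ℝ :=
  L (tangentMap 𝓘(ℝ, E) 𝓘(ℝ, E) (extChartAt 𝓘(ℝ, E) x₀).symm (tvec x v))

/-- `γ : [0, T] → M` is a solution of the Euler-Lagrange equation of `L`: it is `C²` and, in each
chart of `M` (at each `t` such that `γ t` lies in the domain of this chart), with `c` the
coordinate expression of `γ`, `d/dt (∂L/∂v (c, c')) = ∂L/∂x (c, c')`. -/
structure IsTrajectory (L : TangentBundle 𝓘(ℝ, E) M → ℝ) (T : ℝ) (γ : ℝ → M) : Prop where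
  contMDiffOn : ContMDiffOn 𝓘(ℝ, ℝ) 𝓘(ℝ, E) 2 γ (Icc 0 T)
  euler_lagrange : ∀ x₀ : M, ∀ t ∈ Icc (0 : ℝ) T, γ t ∈ (extChartAt 𝓘(ℝ, E) x₀).source →
    ∀ c : ℝ → E, c = (fun τ => extChartAt 𝓘(ℝ, E) x₀ (γ τ)) →
    HasDerivWithinAt
      (fun τ => fderiv ℝ (fun v => localLagrangian L x₀ (c τ) v) (derivWithin c (Icc 0 T) τ))
      (fderiv ℝ (fun x => localLagrangian L x₀ x (derivWithin c (Icc 0 T) t)) (c t))
      (Icc 0 T) t

/-- There is a trajectory of energy `h` joining `x` to `y`. -/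
def JoinedAtEnergy (L : TangentBundle 𝓘(ℝ, E) M → ℝ) (h : ℝ) (x y : M) : Prop :=
  ∃ T > 0, ∃ γ : ℝ → M, IsTrajectory L T γ ∧ γ 0 = x ∧ γ T = y ∧
    ∀ t ∈ Icc (0 : ℝ) T, energy L (velocity E γ T t) = h

variable (E) in
/-- `γ : [0, T] → M` is a closed absolutely continuous curve in `M`
(absolute continuity is tested on the smooth real functions of `M`). -/
structure IsClosedACCurve (γ : ℝ → M) (T : ℝ) : Prop where
  continuousOn : ContinuousOn γ (Icc 0 T)
  closed : γ 0 = γ T
  absolutelyContinuous : ∀ f : M → ℝ, ContMDiff 𝓘(ℝ, E) 𝓘(ℝ, ℝ) ∞ f →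
    AbsolutelyContinuousOnInterval (f ∘ γ) 0 T

/-- The set of `k` such that `∫ (L + k) ≥ 0` over all closed absolutely continuous curves.
(If `L` is the lift of a Tonelli Lagrangian on a compact manifold, then `L` is bounded below, so
the integral is a number or `+∞`; in the latter case the integral of Mathlib is `0`, and the
condition `0 ≤ ∫ (L + k)` holds, as it should.) -/
def criticalSet (L : TangentBundle 𝓘(ℝ, E) M → ℝ) : Set ℝ :=
  {k : ℝ | ∀ T > 0, ∀ γ : ℝ → M, IsClosedACCurve E γ T →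
    0 ≤ ∫ t in (0 : ℝ)..T, (L (velocity E γ T t) + k)}

/-- The set of energies `h` for which some `x` can be joined to every `y` by a trajectory of
energy `h`. -/
def joiningEnergies (L : TangentBundle 𝓘(ℝ, E) M → ℝ) : Set ℝ :=
  {h : ℝ | ∃ x : M, ∀ y : M, JoinedAtEnergy L h x y}

variable {N : Type} [TopologicalSpace N] [ChartedSpace E N]

variable (E) in
/-- `π : N → M` is a (smooth) universal covering map. -/
structure IsUniversalCover (π : N → M) : Prop where
  simplyConnected : SimplyConnectedSpace N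
  isCoveringMap : IsCoveringMap π
  surjective : Function.Surjective π
  isLocalDiffeomorph : IsLocalDiffeomorph 𝓘(ℝ, E) 𝓘(ℝ, E) ∞ π

/-- The lift `L ∘ Tπ` of the Lagrangian `L` on `M` to `N`, for `π : N → M`. -/
noncomputable def lift (π : N → M) (L : TangentBundle 𝓘(ℝ, E) M → ℝ) :
    TangentBundle 𝓘(ℝ, E) N → ℝ :=
  fun p => L (tangentMap 𝓘(ℝ, E) 𝓘(ℝ, E) π p)

variable (E M) in
/-- `M` is a closed (compact, connected, Hausdorff, boundaryless) smooth manifold which carries a
smooth Tonelli Lagrangian `L` such that, for the lift of `L` to a universal cover `π : N → M`, the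
critical value `c_u` (the infimum of `criticalSet`) is strictly larger than the infimum of the
energies `h` for which some `x` can be joined to every `y` by a trajectory of energy `h`.
(`IsGLB s a` says that `a` is the greatest lower bound of `s`.) -/
def ViolatesManeEquality [IsManifold 𝓘(ℝ, E) ∞ M] : Prop :=
  T2Space M ∧ CompactSpace M ∧ ConnectedSpace M ∧
  ∃ (N : Type) (_ : TopologicalSpace N) (_ : ChartedSpace E N) (_ : IsManifold 𝓘(ℝ, E) ∞ N)
    (π : N → M) (L : TangentBundle 𝓘(ℝ, E) M → ℝ),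
    IsUniversalCover E π ∧ IsTonelli L ∧ ContMDiff 𝓘(ℝ, E).tangent 𝓘(ℝ, ℝ) ∞ L ∧
    ∃ c j : ℝ, IsGLB (criticalSet (lift π L)) c ∧ IsGLB (joiningEnergies (lift π L)) j ∧ j < c

end Defs

/-- The unit sphere of Euclidean 4-space, with the manifold structure given by Mathlib. -/
abbrev S3 : Type := Metric.sphere (0 : EuclideanSpace ℝ (Fin 4)) 1

end Pool.Agent.Mane
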