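import Pool.Agent.Mane.Curve

open Set Real
open scoped InnerProductSpace ContDiff Topology Manifold

namespace Pool.Agent.Mane

lemma contDiff_gam (P w : ℝ) (e : E4) : ContDiff ℝ ∞ (gam P w e) := by
  rw [contDiff_euclidean]
  intro i
  have h1 : ContDiff ℝ ∞ (fun t : ℝ => cos (w * t)) := contDiff_cos.comp (by fun_prop)
  have h2 : ContDiff ℝ ∞ (fun t : ℝ => sin (w * t)) := contDiff_sin.comp (by fun_prop)
  have h3 : ContDiff ℝ ∞ (fun t : ℝ => cos (2 * (w * t))) := contDiff_cos.comp (by fun_prop)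
  have h4 : ContDiff ℝ ∞ (fun t : ℝ => sin (2 * (w * t))) := contDiff_sin.comp (by fun_prop)
  have h5 : ContDiff ℝ ∞ (fun t : ℝ => cos (P * t)) := contDiff_cos.comp (by fun_prop)
  have h6 : ContDiff ℝ ∞ (fun t : ℝ => sin (P * t)) := contDiff_sin.comp (by fun_prop)
  have h7 : ∀ j, ContDiff ℝ ∞ (fun t : ℝ => (cos (P * t) • x0 + sin (P * t) • e) j) := by
    intro j
    simp only [PiLp.add_apply, PiLp.smul_apply, smul_eq_mul]
    exact (h5.mul contDiff_const).add (h6.mul contDiff_const)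
  fin_cases i
  · exact (h1.mul (h7 0)).sub (h2.mul (h7 1))
  · exact (h2.mul (h7 0)).add (h1.mul (h7 1))
  · exact (h3.mul (h7 2)).sub (h4.mul (h7 3))
  · exact (h4.mul (h7 2)).add (h3.mul (h7 3))

lemma hasFDerivAt_LL_snd (q v : E4) :
    HasFDerivAt (fun v => LL q v) (innerSL ℝ (LLv q v)) v := by
  have h1 := (hasFDerivAt_LL q v).comp v ((hasFDerivAt_const q v).prodMk (hasFDerivAt_id v))
  refine h1.congr_fderiv ?_
  ext w
  simp

lemma fderiv_local_snd (x₀ : S3) (z v : E3) :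
    fderiv ℝ (fun v => localLagrangian (E := E3) Lag x₀ z v) v =
      (innerSL ℝ (LLv (Psi x₀ z) (fderiv ℝ (Psi x₀) z v))).comp (fderiv ℝ (Psi x₀) z) := by
  have h0 : (fun v => localLagrangian (E := E3) Lag x₀ z v) =
      (fun v => LL (Psi x₀ z) v) ∘ (fderiv ℝ (Psi x₀) z) := by
    funext v; rw [localLagrangian_eq]; rfl
  rw [h0]
  exact ((hasFDerivAt_LL_snd _ _).comp v (ContinuousLinearMap.hasFDerivAt _)).fderiv

lemma hasFDerivAt_local_fst (x₀ : S3) (z v : E3) :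
    HasFDerivAt (fun z => localLagrangian (E := E3) Lag x₀ z v)
      ((innerSL ℝ (LLq (Psi x₀ z) (fderiv ℝ (Psi x₀) z v))).comp (fderiv ℝ (Psi x₀) z) +
       (innerSL ℝ (LLv (Psi x₀ z) (fderiv ℝ (Psi x₀) z v))).comp
        ((fderiv ℝ (fderiv ℝ (Psi x₀)) z).flip v)) z := by
  have h0 : (fun z => localLagrangian (E := E3) Lag x₀ z v) =
      (fun y : E4 × E4 => LL y.1 y.2) ∘ (fun z => (Psi x₀ z, fderiv ℝ (Psi x₀) z v)) := by
    funext z; rw [localLagrangian_eq]; rfl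
  rw [h0]
  have hP : HasFDerivAt (Psi x₀) (fderiv ℝ (Psi x₀) z) z :=
    ((contDiff_Psi x₀).differentiable (by simp) z).hasFDerivAt
  have hP1 : ContDiff ℝ 1 (fderiv ℝ (Psi x₀)) :=
    (contDiff_Psi x₀).fderiv_right (by norm_cast)
  have hP2 : HasFDerivAt (fderiv ℝ (Psi x₀)) (fderiv ℝ (fderiv ℝ (Psi x₀)) z) z :=
    (hP1.differentiable (by simp) z).hasFDerivAt
  have hP3 : HasFDerivAt (fun z => fderiv ℝ (Psi x₀) z v)
      ((fderiv ℝ (fderiv ℝ (Psi x₀)) z).flip v) z := by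
    have := hP2.clm_apply (hasFDerivAt_const v z)
    refine this.congr_fderiv ?_
    ext w
    simp
  have h1 := (hasFDerivAt_LL (Psi x₀ z) (fderiv ℝ (Psi x₀) z v)).comp z (hP.prodMk hP3)
  refine h1.congr_fderiv ?_
  ext w
  simp

section Traj

variable {P w : ℝ} {e : E4} (he : ‖e‖ = 1) (hxe : ⟪x0, e⟫_ℝ = 0)
  (hw : w = 800 * (P * ⟪Xi x0, e⟫_ℝ - 1))

/-- The explicit trajectory in `S3`. -/
noncomputable def gamS (P w : ℝ) (e : E4) (he : ‖e‖ = 1) (hxe : ⟪x0, e⟫_ℝ = 0) : ℝ → S3 :=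
  toS (gam P w e) (norm_gam he hxe)

include hw in
lemma isTrajectory_gamS {T : ℝ} (hT : 0 < T) :
    IsTrajectory (E := E3) Lag T (gamS P w e he hxe) where
  contMDiffOn := ((contMDiff_toS _ (contDiff_gam P w e)).of_le (by norm_cast)).contMDiffOn
  euler_lagrange := by
    intro x₀ t ht hsrc c hc
    set γ := gamS P w e he hxe with hγ
    have hγs : ContMDiff 𝓘(ℝ, ℝ) (𝓡 3) ∞ γ := contMDiff_toS _ (contDiff_gam P w e)
    set J : Set ℝ := {τ | γ τ ∈ (extChartAt (𝓡 3) x₀).source} with hJ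
    have hJopen : IsOpen J := (isOpen_extChartAt_source x₀).preimage hγs.continuous
    have htJ : t ∈ J := hsrc
    -- c is smooth on J
    have hcs : ∀ τ ∈ J, ContDiffAt ℝ ∞ c τ := by
      intro τ hτ
      have h1 : ContMDiffAt (𝓡 3) 𝓘(ℝ, E3) ∞ (extChartAt (𝓡 3) x₀) (γ τ) :=
        contMDiffAt_extChartAt' (by rw [← extChartAt_source (𝓡 3)]; exact hτ)
      have h2 := h1.comp τ (hγs τ)
      rw [hc]
      exact h2.contDiffAt
    have hPc : ∀ τ ∈ J, Psi x₀ (c τ) = gam P w e τ := by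
      intro τ hτ
      have h1 : psi x₀ (c τ) = γ τ := by
        rw [hc]
        exact (extChartAt (𝓡 3) x₀).left_inv hτ
      rw [Psi, h1]
      rfl
    have hdc : ∀ τ ∈ J, HasDerivAt c (deriv c τ) τ := fun τ hτ =>
      ((hcs τ hτ).differentiableAt (by simp)).hasDerivAt
    have hP : ∀ z, HasFDerivAt (Psi x₀) (fderiv ℝ (Psi x₀) z) z := fun z =>
      ((contDiff_Psi x₀).differentiable (by simp) z).hasFDerivAt
    have hvel : ∀ τ ∈ J, fderiv ℝ (Psi x₀) (c τ) (deriv c τ) = vel P w e τ := by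
      intro τ hτ
      have h1 := (hP (c τ)).comp_hasDerivAt τ (hdc τ hτ)
      have h2 : (Psi x₀ ∘ c) =ᶠ[𝓝 τ] gam P w e := by
        filter_upwards [hJopen.mem_nhds hτ] with s hs
        exact hPc s hs
      have h3 := h1.congr_of_eventuallyEq h2.symm
      exact h3.unique (hasDerivAt_gam P w e τ)
    have hdw : ∀ τ ∈ J ∩ Icc 0 T, derivWithin c (Icc 0 T) τ = deriv c τ := by
      intro τ hτ
      exact (hdc τ hτ.1).hasDerivWithinAt.derivWithin (uniqueDiffOn_Icc hT τ hτ.2)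
    -- rewrite the momentum
    have hφ : ∀ τ ∈ J ∩ Icc 0 T,
        fderiv ℝ (fun v => localLagrangian (E := E3) Lag x₀ (c τ) v) (derivWithin c (Icc 0 T) τ) =
        (innerSL ℝ (mom P w e τ)).comp (fderiv ℝ (Psi x₀) (c τ)) := by
      intro τ hτ
      rw [hdw τ hτ, fderiv_local_snd, hvel τ hτ.1, hPc τ hτ.1, LLv_eq hw]
    have hP1 : ContDiff ℝ 1 (fderiv ℝ (Psi x₀)) :=
      (contDiff_Psi x₀).fderiv_right (by norm_cast)
    have hP2 : HasFDerivAt (fderiv ℝ (Psi x₀)) (fderiv ℝ (fderiv ℝ (Psi x₀)) (c t)) (c t) :=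
      (hP1.differentiable (by simp) (c t)).hasFDerivAt
    have hA : HasDerivAt (fun τ => fderiv ℝ (Psi x₀) (c τ))
        (fderiv ℝ (fderiv ℝ (Psi x₀)) (c t) (deriv c t)) t :=
      hP2.comp_hasDerivAt t (hdc t htJ)
    have hB : HasDerivAt (fun τ => innerSL ℝ (mom P w e τ))
        (innerSL ℝ (w • Xi (mom P w e t) - P ^ 2 • gam P w e t)) t :=
      (innerSL ℝ).hasFDerivAt.comp_hasDerivAt t (hasDerivAt_mom P w e t)
    have hC := hB.clm_comp hA
    have hval : fderiv ℝ (fun x => localLagrangian (E := E3) Lag x₀ x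
        (derivWithin c (Icc 0 T) t)) (c t) =
        (innerSL ℝ (w • Xi (mom P w e t) - P ^ 2 • gam P w e t)).comp (fderiv ℝ (Psi x₀) (c t)) +
        (innerSL ℝ (mom P w e t)).comp (fderiv ℝ (fderiv ℝ (Psi x₀)) (c t) (deriv c t)) := by
      rw [hdw t ⟨htJ, ht⟩, (hasFDerivAt_local_fst x₀ (c t) (deriv c t)).fderiv,
        hvel t htJ, hPc t htJ, LLv_eq hw, LLq_eq hw]
      have hsymm : IsSymmSndFDerivAt ℝ (Psi x₀) (c t) :=
        ((contDiff_Psi x₀).contDiffAt).isSymmSndFDerivAt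
          (by rw [minSmoothness_of_isRCLikeNormedField]; norm_cast)
      ext u
      have h1 : ⟪gam P w e t, fderiv ℝ (Psi x₀) (c t) u⟫_ℝ = 0 := by
        rw [← hPc t htJ]; exact inner_Psi_fderiv x₀ (c t) u
      have h2 := hsymm u (deriv c t)
      simp only [add_apply, ContinuousLinearMap.comp_apply, innerSL_apply_apply,
        ContinuousLinearMap.flip_apply, inner_sub_left, real_inner_smul_left, h1, h2]
      ring
    rw [hval]
    refine hC.hasDerivWithinAt.congr_of_eventuallyEq ?_ (hφ t ⟨htJ, ht⟩)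
    filter_upwards [inter_mem_nhdsWithin (Icc 0 T) (hJopen.mem_nhds htJ)] with τ hτ
    exact hφ τ ⟨hτ.2, hτ.1⟩

end Traj

end Pool.Agent.Mane
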