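import Pool.Agent.Mane.Reach

open Set Real
open scoped InnerProductSpace ContDiff Topology

namespace Pool.Agent.Mane

/-- The Lagrangian on `E4 × E4`, restricting to our Lagrangian on the tangent bundle of the unit
sphere. -/
noncomputable def LL (q v : E4) : ℝ :=
  ‖v‖ ^ 2 / 2 - 400 * (⟪Xi q, v⟫_ℝ - 1) ^ 2 / (1 + 800 * ‖Xi q‖ ^ 2)

lemma den_pos (q : E4) : 0 < 1 + 800 * ‖Xi q‖ ^ 2 := by positivity

/-- `∂L/∂v` as a vector. -/
noncomputable def LLv (q v : E4) : E4 :=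
  v - (800 * (⟪Xi q, v⟫_ℝ - 1) / (1 + 800 * ‖Xi q‖ ^ 2)) • Xi q

/-- `∂L/∂q` as a vector. -/
noncomputable def LLq (q v : E4) : E4 :=
  (800 * (⟪Xi q, v⟫_ℝ - 1) / (1 + 800 * ‖Xi q‖ ^ 2)) • Xi v
    - (800 * (⟪Xi q, v⟫_ℝ - 1) / (1 + 800 * ‖Xi q‖ ^ 2)) ^ 2 • Xi (Xi q)

lemma hasFDerivAt_LL (q v : E4) : HasFDerivAt (fun z : E4 × E4 => LL z.1 z.2)
    ((innerSL ℝ (LLq q v)).comp (ContinuousLinearMap.fst ℝ E4 E4)
      + (innerSL ℝ (LLv q v)).comp (ContinuousLinearMap.snd ℝ E4 E4)) (q, v) := by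
  have hfst : HasFDerivAt (fun z : E4 × E4 => z.1) (ContinuousLinearMap.fst ℝ E4 E4) (q, v) :=
    hasFDerivAt_fst
  have hsnd : HasFDerivAt (fun z : E4 × E4 => z.2) (ContinuousLinearMap.snd ℝ E4 E4) (q, v) :=
    hasFDerivAt_snd
  have hXi : HasFDerivAt (fun z : E4 × E4 => Xi z.1) (Xi.comp (ContinuousLinearMap.fst ℝ E4 E4))
      (q, v) := (Xi.hasFDerivAt (x := q)).comp (q, v) hfst
  have h1 := hsnd.norm_sq
  have h2 := hXi.norm_sq
  have h3 := hXi.inner ℝ hsnd
  have hden : (1 + 800 * ‖Xi q‖ ^ 2) ≠ 0 := (den_pos q).ne'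
  have h4 := ((h3.sub_const 1).pow 2).const_mul 400
  have h5 := (h2.const_mul 800).const_add 1
  have h6 := h4.mul ((hasDerivAt_inv hden).comp_hasFDerivAt (q, v) h5)
  have h7 := (h1.mul_const (1/2 : ℝ)).sub h6
  have h8 : (fun z : E4 × E4 => LL z.1 z.2) = fun z : E4 × E4 => ‖z.2‖ ^ 2 * (1/2 : ℝ) -
      400 * (⟪Xi z.1, z.2⟫_ℝ - 1) ^ 2 * (1 + 800 * ‖Xi z.1‖ ^ 2)⁻¹ := by
    funext z; simp only [LL]; ring
  rw [h8]
  refine h7.congr_fderiv ?_
  apply ContinuousLinearMap.ext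
  rintro ⟨a, b⟩
  simp only [sub_apply, add_apply,
    smul_apply, ContinuousLinearMap.comp_apply, ContinuousLinearMap.coe_fst',
    ContinuousLinearMap.coe_snd', innerSL_apply_apply, fderivInnerCLM_apply,
    ContinuousLinearMap.prod_apply, Function.comp, smul_eq_mul, nsmul_eq_mul,
    LLq, LLv, inner_sub_left, real_inner_smul_left, Xi_skew]
  have hs : ⟪a, Xi v⟫_ℝ = -⟪v, Xi a⟫_ℝ := by
    have h9 := Xi_skew a v
    have h10 := real_inner_comm v (Xi a)
    linarith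
  rw [hs]
  field_simp
  ring

/-- The explicit curve. -/
noncomputable def gam (P w : ℝ) (e : E4) (t : ℝ) : E4 :=
  Rot (w * t) (cos (P * t) • x0 + sin (P * t) • e)

/-- Its momentum. -/
noncomputable def mom (P w : ℝ) (e : E4) (t : ℝ) : E4 :=
  Rot (w * t) (P • (cos (P * t) • e - sin (P * t) • x0))

/-- Its velocity. -/
noncomputable def vel (P w : ℝ) (e : E4) (t : ℝ) : E4 :=
  mom P w e t + w • Xi (gam P w e t)

lemma hasDerivAt_Rot_comp {w t : ℝ} {g : ℝ → E4} {g' : E4} (hg : HasDerivAt g g' t) :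
    HasDerivAt (fun s => Rot (w * s) (g s)) (w • Xi (Rot (w * t) (g t)) + Rot (w * t) g') t := by
  have hw : HasDerivAt (fun s : ℝ => w * s) w t := by simpa using (hasDerivAt_id t).const_mul w
  have hi : ∀ i, HasDerivAt (fun s => g s i) (g' i) t := by
    intro i
    have := (PiLp.proj (𝕜 := ℝ) 2 (fun _ : Fin 4 => ℝ) i).hasFDerivAt.comp_hasDerivAt t hg
    exact this
  have hc := hw.cos
  have hs := hw.sin
  have hw2 : HasDerivAt (fun s : ℝ => 2 * (w * s)) (2 * w) t := hw.const_mul 2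
  have hc2 := hw2.cos
  have hs2 := hw2.sin
  apply hasDerivAt_E4
  intro i
  fin_cases i
  · show HasDerivAt (fun s => Rot (w * s) (g s) 0) ((w • Xi (Rot (w * t) (g t)) +
      Rot (w * t) g') 0) t
    simp only [PiLp.add_apply, PiLp.smul_apply, smul_eq_mul, Rot_0, Rot_1, Xi_0]
    exact ((hc.mul (hi 0)).sub (hs.mul (hi 1))).congr_deriv (by ring)
  · show HasDerivAt (fun s => Rot (w * s) (g s) 1) ((w • Xi (Rot (w * t) (g t)) +
      Rot (w * t) g') 1) t
    simp only [PiLp.add_apply, PiLp.smul_apply, smul_eq_mul, Rot_0, Rot_1, Xi_1]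
    exact ((hs.mul (hi 0)).add (hc.mul (hi 1))).congr_deriv (by ring)
  · show HasDerivAt (fun s => Rot (w * s) (g s) 2) ((w • Xi (Rot (w * t) (g t)) +
      Rot (w * t) g') 2) t
    simp only [PiLp.add_apply, PiLp.smul_apply, smul_eq_mul, Rot_2, Rot_3, Xi_2]
    exact ((hc2.mul (hi 2)).sub (hs2.mul (hi 3))).congr_deriv (by ring)
  · show HasDerivAt (fun s => Rot (w * s) (g s) 3) ((w • Xi (Rot (w * t) (g t)) +
      Rot (w * t) g') 3) t
    simp only [PiLp.add_apply, PiLp.smul_apply, smul_eq_mul, Rot_2, Rot_3, Xi_3]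
    exact ((hs2.mul (hi 2)).add (hc2.mul (hi 3))).congr_deriv (by ring)

lemma hasDerivAt_gam (P w : ℝ) (e : E4) (t : ℝ) :
    HasDerivAt (gam P w e) (vel P w e t) t := by
  have hP : HasDerivAt (fun s : ℝ => P * s) P t := by simpa using (hasDerivAt_id t).const_mul P
  have h1 : HasDerivAt (fun s => cos (P * s) • x0 + sin (P * s) • e)
      (P • (cos (P * t) • e - sin (P * t) • x0)) t := by
    have := (hP.cos.smul_const x0).add (hP.sin.smul_const e)
    refine this.congr_deriv ?_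
    module
  have h2 := hasDerivAt_Rot_comp (w := w) h1
  refine h2.congr_deriv ?_
  rw [vel, mom, gam, add_comm]

lemma hasDerivAt_mom (P w : ℝ) (e : E4) (t : ℝ) :
    HasDerivAt (mom P w e) (w • Xi (mom P w e t) - P ^ 2 • gam P w e t) t := by
  have hP : HasDerivAt (fun s : ℝ => P * s) P t := by simpa using (hasDerivAt_id t).const_mul P
  have h1 : HasDerivAt (fun s => P • (cos (P * s) • e - sin (P * s) • x0))
      (-P ^ 2 • (cos (P * t) • x0 + sin (P * t) • e)) t := by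
    have := ((hP.cos.smul_const e).sub (hP.sin.smul_const x0)).const_smul P
    refine this.congr_deriv ?_
    module
  have h2 := hasDerivAt_Rot_comp (w := w) h1
  refine h2.congr_deriv ?_
  rw [mom, gam, map_smul (Rot (w * t)) (-P ^ 2)]
  module

section Rel

variable {P w : ℝ} {e : E4} (he : ‖e‖ = 1) (hxe : ⟪x0, e⟫_ℝ = 0)

include he hxe

lemma norm_gam (t : ℝ) : ‖gam P w e t‖ = 1 := by
  rw [gam, Rot_norm]
  have h : ‖cos (P * t) • x0 + sin (P * t) • e‖ ^ 2 = 1 := by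
    rw [norm_add_sq_real, norm_smul, norm_smul, real_inner_smul_left, real_inner_smul_right,
      hxe, norm_x0, he]
    simp only [norm_eq_abs, mul_one, sq_abs, mul_zero, add_zero]
    exact cos_sq_add_sin_sq _
  have h2 := norm_nonneg (cos (P * t) • x0 + sin (P * t) • e)
  nlinarith

lemma inner_mom_gam (t : ℝ) : ⟪mom P w e t, gam P w e t⟫_ℝ = 0 := by
  rw [mom, gam, Rot_inner, real_inner_smul_left, inner_sub_left, inner_add_right,
    inner_add_right]
  simp only [real_inner_smul_left, real_inner_smul_right, inner_x0_self, hxe,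
    real_inner_comm x0 e, real_inner_self_eq_norm_sq e, he]
  ring

lemma norm_mom_sq (t : ℝ) : ‖mom P w e t‖ ^ 2 = P ^ 2 := by
  rw [mom, Rot_norm, norm_smul, mul_pow, norm_sub_sq_real, norm_smul, norm_smul,
    real_inner_smul_left, real_inner_smul_right, real_inner_comm, hxe, norm_x0, he]
  simp only [norm_eq_abs, mul_one, sq_abs, mul_zero, sub_zero]
  have := cos_sq_add_sin_sq (P * t)
  rw [this, mul_one]

omit he hxe in
lemma inner_Xi_mom (t : ℝ) : ⟪Xi (gam P w e t), mom P w e t⟫_ℝ = P * ⟪Xi x0, e⟫_ℝ := by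
  rw [mom, gam, ← Rot_Xi, Rot_inner, real_inner_smul_right, map_add, map_smul, map_smul,
    inner_sub_right, inner_add_left, inner_add_left]
  simp only [real_inner_smul_left, real_inner_smul_right, Xi_self]
  have h1 : ⟪Xi e, x0⟫_ℝ = -⟪Xi x0, e⟫_ℝ := by
    rw [Xi_skew, real_inner_comm]
  rw [h1]
  have := cos_sq_add_sin_sq (P * t)
  linear_combination P * ⟪Xi x0, e⟫_ℝ * this

variable (hw : w = 800 * (P * ⟪Xi x0, e⟫_ℝ - 1))

omit he hxe in
include hw in
lemma inner_Xi_vel (t : ℝ) : ⟪Xi (gam P w e t), vel P w e t⟫_ℝ - 1 =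
    w / 800 * (1 + 800 * ‖Xi (gam P w e t)‖ ^ 2) := by
  rw [vel, inner_add_right, real_inner_smul_right, inner_Xi_mom, real_inner_self_eq_norm_sq]
  linear_combination (-1/800) * hw

omit he hxe in
include hw in
lemma coef_eq (t : ℝ) : 800 * (⟪Xi (gam P w e t), vel P w e t⟫_ℝ - 1) /
    (1 + 800 * ‖Xi (gam P w e t)‖ ^ 2) = w := by
  rw [inner_Xi_vel hw]
  have := den_pos (gam P w e t)
  field_simp

omit he hxe in
include hw in
lemma LLv_eq (t : ℝ) : LLv (gam P w e t) (vel P w e t) = mom P w e t := by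
  rw [LLv, coef_eq hw, vel, add_sub_cancel_right]

omit he hxe in
include hw in
lemma LLq_eq (t : ℝ) : LLq (gam P w e t) (vel P w e t) = w • Xi (mom P w e t) := by
  rw [LLq, coef_eq hw, vel, map_add, map_smul]
  module

include hw in
/-- The energy along the explicit curve. -/
lemma energy_eq (t : ℝ) : ⟪LLv (gam P w e t) (vel P w e t), vel P w e t⟫_ℝ -
    LL (gam P w e t) (vel P w e t) = P ^ 2 / 2 + w ^ 2 / 1600 := by
  rw [LLv_eq hw]
  have h0 := den_pos (gam P w e t)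
  have h1 := inner_Xi_vel hw t
  have h2 := inner_Xi_mom (P := P) (w := w) (e := e) t
  have h3 := norm_mom_sq (P := P) (w := w) he hxe t
  have h4 : ⟪mom P w e t, vel P w e t⟫_ℝ = P ^ 2 + w * (P * ⟪Xi x0, e⟫_ℝ) := by
    rw [vel, inner_add_right, real_inner_self_eq_norm_sq, h3, real_inner_smul_right,
      real_inner_comm, h2]
  have h5 : ‖vel P w e t‖ ^ 2 = P ^ 2 + 2 * w * (P * ⟪Xi x0, e⟫_ℝ) +
      w ^ 2 * ‖Xi (gam P w e t)‖ ^ 2 := by
    rw [vel, norm_add_sq_real, h3, real_inner_smul_right, real_inner_comm, h2, norm_smul,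
      mul_pow, norm_eq_abs, sq_abs]
    ring
  have h6 : P * ⟪Xi x0, e⟫_ℝ = w / 800 + 1 := by linarith
  rw [LL, h1, h4, h5, h6]
  field_simp
  ring

end Rel

end Pool.Agent.Mane
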