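import Pool.Agent.Mane.EL
import Pool.Agent.Lib.SphereSimplyConnected

open Set Real
open scoped InnerProductSpace ContDiff Topology Manifold

namespace Pool.Agent.Mane

/-- The starting point, in `S3`. -/
noncomputable def x0S : S3 := ⟨x0, by rw [mem_sphere_zero_iff_norm]; exact norm_x0⟩

lemma joined (y : S3) : JoinedAtEnergy (E := E3) Lag 200 x0S y := by
  obtain ⟨T, P, w, e, hT, he, hxe, hw, hE, hy⟩ := reach (iota y) (norm_iota y)
  refine ⟨T, hT, gamS P w e he hxe, isTrajectory_gamS he hxe hw hT, ?_, ?_, ?_⟩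
  · apply Subtype.ext
    show gam P w e 0 = x0
    rw [gam]
    simp [Rot_zero]
  · apply Subtype.ext
    exact hy
  · intro t ht
    rw [energy_Lag]
    have h1 : dio (velocity E3 (gamS P w e he hxe) T t) = vel P w e t := by
      rw [gamS, dio_velocity _ (contDiff_gam P w e) hT ht]
      exact (hasDerivAt_gam P w e t).deriv
    have h2 : iota (velocity E3 (gamS P w e he hxe) T t).1 = gam P w e t := rfl
    rw [h1, h2, energy_eq he hxe hw, hE]

lemma joiningEnergies_bddBelow : BddBelow (joiningEnergies (E := E3) Lag) := by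
  refine ⟨0, ?_⟩
  rintro h ⟨x, hx⟩
  obtain ⟨T, hT, γ, -, -, -, hE⟩ := hx x
  rw [← hE 0 ⟨le_rfl, hT.le⟩]
  exact energy_nonneg _

lemma mem_joiningEnergies : (200 : ℝ) ∈ joiningEnergies (E := E3) Lag := ⟨x0S, joined⟩

lemma sInf_joiningEnergies_le : sInf (joiningEnergies (E := E3) Lag) ≤ 200 :=
  csInf_le joiningEnergies_bddBelow mem_joiningEnergies

lemma mem_criticalSet : (400 : ℝ) ∈ criticalSet (E := E3) Lag := by
  intro T hT γ _
  apply intervalIntegral.integral_nonneg hT.le
  intro t _
  have := LL_ge (iota (velocity E3 γ T t).1) (dio (velocity E3 γ T t))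
  have h2 : Lag (velocity E3 γ T t) = LL (iota (velocity E3 γ T t).1) (dio (velocity E3 γ T t)) := rfl
  rw [h2]
  linarith

/-- the closed orbit -/
noncomputable def orb (t : ℝ) : E4 := Rot (-800 * t) x0

lemma norm_orb (t : ℝ) : ‖orb t‖ = 1 := by rw [orb, Rot_norm, norm_x0]

lemma orb_eq : orb = gam 0 (-800) 0 := by
  funext t
  rw [orb, gam]
  simp

lemma contDiff_orb : ContDiff ℝ ∞ orb := by rw [orb_eq]; exact contDiff_gam _ _ _

lemma hasDerivAt_orb (t : ℝ) : HasDerivAt orb ((-800 : ℝ) • Xi (orb t)) t := by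
  have h := hasDerivAt_Rot_comp (w := -800) (hasDerivAt_const t x0)
  refine h.congr_deriv ?_
  simp [orb]

lemma LL_orb (q : E4) : LL q ((-800 : ℝ) • Xi q) = -400 := by
  have hD := den_pos q
  rw [LL, real_inner_smul_right, real_inner_self_eq_norm_sq, norm_smul, mul_pow]
  norm_num
  field_simp
  ring

lemma le_of_mem_criticalSet {k : ℝ} (hk : k ∈ criticalSet (E := E3) Lag) : 400 ≤ k := by
  have hpi := pi_pos
  have hT : 0 < π / 400 := by positivity
  have hcl : IsClosedACCurve E3 (toS orb norm_orb) (π / 400) := by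
    refine ⟨(contMDiff_toS norm_orb contDiff_orb).continuous.continuousOn, ?_, ?_⟩
    · apply Subtype.ext
      show orb 0 = orb (π / 400)
      rw [orb, orb]
      have h1 : -800 * (0 : ℝ) = -800 * (π / 400) + 2 * π := by ring
      rw [h1, Rot_add_two_pi]
    · intro f hf
      have h1 : ContMDiff 𝓘(ℝ, ℝ) 𝓘(ℝ, ℝ) ∞ (f ∘ toS orb norm_orb) :=
        hf.comp (contMDiff_toS norm_orb contDiff_orb)
      have h2 : ContDiff ℝ ∞ (f ∘ toS orb norm_orb) := h1.contDiff
      exact (h2.of_le (by norm_cast)).contDiffOn.absolutelyContinuousOnInterval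
  have h := hk (π / 400) hT _ hcl
  have h2 : ∫ t in (0 : ℝ)..(π / 400), (Lag (velocity E3 (toS orb norm_orb) (π / 400) t) + k) =
      ∫ t in (0 : ℝ)..(π / 400), (-400 + k) := by
    apply intervalIntegral.integral_congr
    intro t ht
    rw [uIcc_of_le hT.le] at ht
    have h1 : dio (velocity E3 (toS orb norm_orb) (π / 400) t) = (-800 : ℝ) • Xi (orb t) := by
      rw [dio_velocity _ contDiff_orb hT ht]
      exact (hasDerivAt_orb t).deriv
    have h2 : Lag (velocity E3 (toS orb norm_orb) (π / 400) t) = -400 := by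
      rw [Lag, h1]
      exact LL_orb _
    simp only [h2]
  rw [h2, intervalIntegral.integral_const] at h
  simp only [sub_zero, smul_eq_mul] at h
  have h3 : 0 ≤ -400 + k := by
    by_contra h4
    push Not at h4
    have := mul_neg_of_pos_of_neg hT h4
    linarith
  linarith

lemma isLeast_criticalSet : IsLeast (criticalSet (E := E3) Lag) 400 :=
  ⟨mem_criticalSet, fun _ hk => le_of_mem_criticalSet hk⟩

lemma isGLB_joiningEnergies : IsGLB (joiningEnergies (E := E3) Lag)
    (sInf (joiningEnergies (E := E3) Lag)) :=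
  isGLB_csInf ⟨200, mem_joiningEnergies⟩ joiningEnergies_bddBelow

lemma isCoveringMap_id (X : Type*) [TopologicalSpace X] : IsCoveringMap (id : X → X) := by
  intro x
  have h : IsEvenlyCovered (id : X → X) x PUnit.{1} :=
    ⟨inferInstance, univ, trivial, isOpen_univ, isOpen_univ,
      (Homeomorph.prodPUnit (univ : Set X)).symm, fun _ => rfl⟩
  exact h.to_isEvenlyCovered_preimage

lemma isUniversalCover_id : IsUniversalCover E3 (id : S3 → S3) where
  simplyConnected := Pool.Agent.Lib.simplyConnectedSpace_sphere (n := 3) (E := E4) (by norm_num)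
  isCoveringMap := isCoveringMap_id S3
  surjective := Function.surjective_id
  isLocalDiffeomorph := (Diffeomorph.refl (𝓡 3) S3 ∞).isLocalDiffeomorph

lemma lift_id (L : TangentBundle (𝓡 3) S3 → ℝ) : lift (E := E3) (id : S3 → S3) L = L := by
  funext p
  rw [lift, tangentMap_id]
  rfl

theorem violates : ViolatesManeEquality E3 S3 := by
  have hsc : SimplyConnectedSpace S3 := isUniversalCover_id.simplyConnected
  refine ⟨inferInstance, inferInstance, inferInstance, S3, inferInstance, inferInstance,
    inferInstance, id, Lag, isUniversalCover_id, isTonelli_Lag, contMDiff_Lag, 400, sInf (joiningEnergies (E := E3) Lag),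
    ?_, ?_, ?_⟩
  · rw [lift_id]
    exact isLeast_criticalSet.isGLB
  · rw [lift_id]
    exact isGLB_joiningEnergies
  · exact lt_of_le_of_lt sInf_joiningEnergies_le (by norm_num)

end Pool.Agent.Mane
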