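import Pool.Agent.Mane.Rot

open Set Real
open scoped InnerProductSpace

namespace Pool.Agent.Mane

/-- The starting point `(3/5, 0, 4/5, 0)`. -/
noncomputable def x0 : E4 := !₂[3/5, 0, 4/5, 0]

@[simp] lemma x0_0 : x0 0 = 3/5 := rfl
@[simp] lemma x0_1 : x0 1 = 0 := rfl
@[simp] lemma x0_2 : x0 2 = 4/5 := rfl
@[simp] lemma x0_3 : x0 3 = 0 := rfl

lemma norm_x0 : ‖x0‖ = 1 := by
  have h := normsq4 x0
  simp only [x0_0, x0_1, x0_2, x0_3] at h
  have h2 : ‖x0‖ ^ 2 = 1 := by rw [h]; norm_num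
  have h3 : (‖x0‖ - 1) * (‖x0‖ + 1) = 0 := by linarith
  rcases mul_eq_zero.1 h3 with h4 | h4
  · linarith
  · have := norm_nonneg x0; linarith

lemma inner_x0_self : ⟪x0, x0⟫_ℝ = 1 := by
  rw [real_inner_self_eq_norm_sq, norm_x0]; norm_num

/-- `C y t = ⟨Rot t x0, y⟩`. -/
noncomputable def Cf (y : E4) (t : ℝ) : ℝ := ⟪Rot t x0, y⟫_ℝ

lemma Cf_eq (y : E4) (t : ℝ) : Cf y t = 3/5 * (cos t * y 0 + sin t * y 1)
    + 4/5 * (cos (2 * t) * y 2 + sin (2 * t) * y 3) := by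
  rw [Cf, inner4]
  simp only [Rot_0, Rot_1, Rot_2, Rot_3, x0_0, x0_1, x0_2, x0_3]
  ring

lemma hasDerivAt_Cf (y : E4) (t : ℝ) : HasDerivAt (Cf y) ⟪Xi (Rot t x0), y⟫_ℝ t := by
  have h := (hasDerivAt_Rot x0 t).inner ℝ (hasDerivAt_const t y)
  have h2 := h.congr_deriv (g' := ⟪Xi (Rot t x0), y⟫_ℝ) (by simp)
  exact h2

lemma continuous_Cf (y : E4) : Continuous (Cf y) :=
  continuous_iff_continuousAt.2 fun t => (hasDerivAt_Cf y t).continuousAt

lemma Cf_add_two_pi (y : E4) (t : ℝ) : Cf y (t + 2 * π) = Cf y t := by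
  rw [Cf, Rot_add_two_pi, Cf]

lemma abs_Cf_le (y : E4) (hy : ‖y‖ = 1) (t : ℝ) : |Cf y t| ≤ 1 := by
  have h := abs_real_inner_le_norm (Rot t x0) y
  rw [Rot_norm, norm_x0, hy] at h
  simpa [Cf] using h

/-- If all oscillations of `C y` are at most `D` then `D ≥ 3/5`. -/
lemma osc_bound (y : E4) (hy : ‖y‖ = 1) (D : ℝ) (hD : ∀ s t, Cf y s - Cf y t ≤ D) :
    3/5 ≤ D := by
  have hn := normsq4 y
  rw [hy] at hn
  have e0 : Cf y 0 = 3/5 * y 0 + 4/5 * y 2 := by rw [Cf_eq]; simp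
  have e1 : Cf y π = -3/5 * y 0 + 4/5 * y 2 := by
    rw [Cf_eq]; simp only [cos_pi, sin_pi, cos_two_pi, sin_two_pi]; ring
  have e2 : Cf y (π/2) = 3/5 * y 1 - 4/5 * y 2 := by
    rw [Cf_eq, show 2 * (π/2) = π by ring]
    simp only [cos_pi_div_two, sin_pi_div_two, cos_pi, sin_pi]; ring
  have e3 : Cf y (-(π/2)) = -3/5 * y 1 - 4/5 * y 2 := by
    rw [Cf_eq, show 2 * (-(π/2)) = -π by ring]
    simp only [cos_neg, sin_neg, cos_pi_div_two, sin_pi_div_two, cos_pi, sin_pi]; ring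
  have e4 : Cf y (π/4) + Cf y (π/4 + π) = 8/5 * y 3 := by
    rw [Cf_eq, Cf_eq, show 2 * (π/4) = π/2 by ring, show 2 * (π/4 + π) = π/2 + 2 * π by ring]
    simp only [cos_add_pi, sin_add_pi, cos_add_two_pi, sin_add_two_pi, cos_pi_div_two,
      sin_pi_div_two]
    ring
  have e5 : Cf y (-(π/4)) + Cf y (-(π/4) + π) = -8/5 * y 3 := by
    rw [Cf_eq, Cf_eq, show 2 * (-(π/4)) = -(π/2) by ring,
      show 2 * (-(π/4) + π) = -(π/2) + 2 * π by ring]
    simp only [cos_add_pi, sin_add_pi, cos_add_two_pi, sin_add_two_pi, cos_neg, sin_neg,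
      cos_pi_div_two, sin_pi_div_two]
    ring
  have b0 : |y 0| ≤ 5/6 * D := by
    rw [abs_le]
    have h1 := hD 0 π
    have h2 := hD π 0
    rw [e0, e1] at h1
    rw [e0, e1] at h2
    constructor <;> linarith
  have b1 : |y 1| ≤ 5/6 * D := by
    rw [abs_le]
    have h1 := hD (π/2) (-(π/2))
    have h2 := hD (-(π/2)) (π/2)
    rw [e2, e3] at h1
    rw [e2, e3] at h2
    constructor <;> linarith
  have hD0 : 0 ≤ D := by have := hD 0 0; linarith
  have b2 : |y 2| ≤ 5/6 * D := by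
    rw [abs_le]
    have h1 := hD 0 (π/2)
    have h2 := hD π (-(π/2))
    have h3 := hD (π/2) 0
    have h4 := hD (-(π/2)) π
    rw [e0, e2] at h1
    rw [e1, e3] at h2
    rw [e0, e2] at h3
    rw [e1, e3] at h4
    constructor <;> linarith
  have b3 : |y 3| ≤ 5/6 * D := by
    rw [abs_le]
    have h1 := hD (π/4) (-(π/4))
    have h2 := hD (π/4 + π) (-(π/4) + π)
    have h3 := hD (-(π/4)) (π/4)
    have h4 := hD (-(π/4) + π) (π/4 + π)
    constructor <;> linarith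
  have s0 : y 0 ^ 2 ≤ (5/6 * D) ^ 2 := sq_le_sq' (by linarith [abs_le.1 b0]) (abs_le.1 b0).2
  have s1 : y 1 ^ 2 ≤ (5/6 * D) ^ 2 := sq_le_sq' (by linarith [abs_le.1 b1]) (abs_le.1 b1).2
  have s2 : y 2 ^ 2 ≤ (5/6 * D) ^ 2 := sq_le_sq' (by linarith [abs_le.1 b2]) (abs_le.1 b2).2
  have s3 : y 3 ^ 2 ≤ (5/6 * D) ^ 2 := sq_le_sq' (by linarith [abs_le.1 b3]) (abs_le.1 b3).2
  nlinarith

/-- The distance function `d t = arccos (C y t)`. -/
noncomputable def df (y : E4) (t : ℝ) : ℝ := arccos (Cf y t)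

/-- `F t = 20 sqrt ((2 π + d t)² + t²/800) + t`. -/
noncomputable def Ff (y : E4) (t : ℝ) : ℝ := 20 * √((2 * π + df y t) ^ 2 + t ^ 2 / 800) + t

lemma continuous_df (y : E4) : Continuous (df y) := continuous_arccos.comp (continuous_Cf y)

lemma df_nonneg (y : E4) (t : ℝ) : 0 ≤ df y t := arccos_nonneg _

lemma df_le_pi (y : E4) (t : ℝ) : df y t ≤ π := arccos_le_pi _

lemma cos_df (y : E4) (hy : ‖y‖ = 1) (t : ℝ) : cos (df y t) = Cf y t := by
  have h := abs_le.1 (abs_Cf_le y hy t)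
  exact cos_arccos h.1 h.2

lemma continuous_Ff (y : E4) : Continuous (Ff y) := by
  unfold Ff
  have := continuous_df y
  fun_prop

lemma df_add_two_pi (y : E4) (t : ℝ) : df y (t + 2 * π) = df y t := by
  rw [df, Cf_add_two_pi, df]

lemma df_periodic (y : E4) : Function.Periodic (df y) (2 * π) := df_add_two_pi y

lemma exists_critical (y : E4) (hy : ‖y‖ = 1) : ∃ t : ℝ, IsLocalMin (Ff y) t := by
  have hpi := pi_pos
  have hpi4 := pi_lt_d2
  -- maximum of df
  obtain ⟨t1, ht1, hmax⟩ := (isCompact_Icc (a := -π) (b := π)).exists_isMaxOn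
    ⟨0, by constructor <;> linarith⟩ (continuous_df y).continuousOn
  have hmax' : ∀ t, df y t ≤ df y t1 := by
    intro t
    obtain ⟨s, hs, hst⟩ := (df_periodic y).exists_mem_Ico (by positivity : (0 : ℝ) < 2 * π) t (-π)
    rw [hst]
    apply hmax
    exact ⟨hs.1, by linarith [hs.2]⟩
  obtain ⟨t2, ht2, hmin⟩ := (isCompact_Icc (a := t1) (b := t1 + 2 * π)).exists_isMinOn
    ⟨t1, by constructor <;> linarith⟩ (continuous_df y).continuousOn
  have hmin' : ∀ t, df y t2 ≤ df y t := by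
    intro t
    obtain ⟨s, hs, hst⟩ := (df_periodic y).exists_mem_Ico (by positivity : (0 : ℝ) < 2 * π) t t1
    rw [hst]
    apply hmin
    exact ⟨hs.1, by linarith [hs.2]⟩
  have hD : 3/5 ≤ df y t1 - df y t2 := by
    apply osc_bound y hy
    intro s t
    rw [← cos_df y hy s, ← cos_df y hy t]
    have h1 : |cos (df y s) - cos (df y t)| ≤ |df y s - df y t| := abs_cos_sub_cos_le _ _
    have h2 := le_abs_self (cos (df y s) - cos (df y t))
    have h3 : |df y s - df y t| ≤ df y t1 - df y t2 := by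
      rw [abs_le]
      constructor
      · linarith [hmin' s, hmax' t]
      · linarith [hmin' t, hmax' s]
    linarith
  obtain ⟨t3, ht3, hF⟩ := (isCompact_Icc (a := t1) (b := t1 + 2 * π)).exists_isMinOn
    ⟨t1, by constructor <;> linarith⟩ (continuous_Ff y).continuousOn
  have hF2 : Ff y t3 ≤ Ff y t2 := hF ht2
  -- Ff t2 < Ff t1
  have hlt : Ff y t2 < Ff y t1 := by
    have a1 : 2 * π + df y t1 ≤ √((2 * π + df y t1) ^ 2 + t1 ^ 2 / 800) := by
      apply le_sqrt_of_sq_le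
      have := sq_nonneg t1
      linarith
    have a2 : √((2 * π + df y t2) ^ 2 + t2 ^ 2 / 800) ≤ 2 * π + df y t2 + 1/100 := by
      have h0 := df_nonneg y t2
      rw [sqrt_le_left (by linarith)]
      have h1 : -π ≤ t2 := by linarith [ht2.1, ht1.1]
      have h2 : t2 ≤ 3 * π := by linarith [ht2.2, ht1.2]
      have h3 : t2 ^ 2 ≤ (3 * π) ^ 2 := sq_le_sq' (by linarith) h2
      nlinarith
    have h1 : t2 ≤ t1 + 2 * π := ht2.2
    unfold Ff
    linarith
  have hlt2 : Ff y t1 < Ff y (t1 + 2 * π) := by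
    unfold Ff
    have : √((2 * π + df y t1) ^ 2 + t1 ^ 2 / 800)
        ≤ √((2 * π + df y (t1 + 2 * π)) ^ 2 + (t1 + 2 * π) ^ 2 / 800) := by
      apply sqrt_le_sqrt
      rw [df_add_two_pi]
      have : t1 ^ 2 ≤ (t1 + 2 * π) ^ 2 := by nlinarith [ht1.1]
      linarith
    linarith
  have hne1 : t3 ≠ t1 := by
    rintro rfl
    linarith
  have hne2 : t3 ≠ t1 + 2 * π := by
    rintro rfl
    linarith
  refine ⟨t3, hF.isLocalMin ?_⟩
  apply Icc_mem_nhds
  · exact lt_of_le_of_ne ht3.1 (Ne.symm hne1)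
  · exact lt_of_le_of_ne ht3.2 hne2

/-- The parameters of an explicit trajectory from `x0` to `y`. -/
def Reach (y : E4) : Prop := ∃ (T P w : ℝ) (e : E4), 0 < T ∧ ‖e‖ = 1 ∧ ⟪x0, e⟫_ℝ = 0 ∧
  w = 800 * (P * ⟪Xi x0, e⟫_ℝ - 1) ∧ P ^ 2 / 2 + w ^ 2 / 1600 = 200 ∧
  Rot (w * T) (cos (P * T) • x0 + sin (P * T) • e) = y

/-- The generic case. -/
lemma reach_generic (y : E4) (hy : ‖y‖ = 1) (hC : ∀ t, |Cf y t| < 1) : Reach y := by
  obtain ⟨t, ht⟩ := exists_critical y hy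
  have hpi := pi_pos
  set l : ℝ := 2 * π + df y t with hl
  set Q : ℝ := √(l ^ 2 + t ^ 2 / 800) with hQ
  have hl0 : 0 < l := by have := df_nonneg y t; linarith
  have hQpos : 0 < Q := sqrt_pos.2 (by positivity)
  have hQsq : Q ^ 2 = l ^ 2 + t ^ 2 / 800 := sq_sqrt (by positivity)
  have hC1 := abs_lt.1 (hC t)
  have hsin : sin (df y t) = √(1 - Cf y t ^ 2) := sin_arccos _
  have hpos : 0 < 1 - Cf y t ^ 2 := by nlinarith
  set S : ℝ := √(1 - Cf y t ^ 2) with hS
  have hSpos : 0 < S := sqrt_pos.2 hpos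
  have hSsq : S ^ 2 = 1 - Cf y t ^ 2 := sq_sqrt hpos.le
  set N : ℝ := ⟪Xi (Rot t x0), y⟫_ℝ with hN
  -- derivative of df
  have hd : HasDerivAt (df y) (-(N / S)) t := by
    have h1 := (hasDerivAt_arccos (ne_of_gt hC1.1) (ne_of_lt hC1.2)).comp t (hasDerivAt_Cf y t)
    refine h1.congr_deriv ?_
    rw [← hN, ← hS]
    ring
  have hF : HasDerivAt (Ff y) (20 * ((2 * l * (-(N / S)) + 2 * t / 800) / (2 * Q)) + 1) t := by
    have h1 : HasDerivAt (fun s => (2 * π + df y s) ^ 2 + s ^ 2 / 800)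
        (2 * l * (-(N / S)) + 2 * t / 800) t := by
      have h2 : HasDerivAt (fun s => (2 * π + df y s) ^ 2) (2 * l * (-(N / S))) t := by
        have h3 := (hd.const_add (2 * π)).pow 2
        refine h3.congr_deriv ?_
        rw [← hl]; ring
      have h4 : HasDerivAt (fun s : ℝ => s ^ 2 / 800) (2 * t / 800) t := by
        have h5 := ((hasDerivAt_id t).pow 2).div_const 800
        refine h5.congr_deriv ?_
        simp
      exact h2.add h4
    have h6 := (h1.sqrt (by rw [← hl, ← hQsq]; positivity)).const_mul 20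
    exact h6.add (hasDerivAt_id t)
  have hzero := ht.hasDerivAt_eq_zero hF
  have hrel : l * (N / S) = t / 800 + Q / 20 := by
    field_simp at hzero
    field_simp
    linarith
  refine ⟨Q / 20, 20 * l / Q, 20 * t / Q, S⁻¹ • (Rot (-t) y - Cf y t • x0), by positivity,
    ?_, ?_, ?_, ?_, ?_⟩
  · -- norm
    have h1 : ‖S⁻¹ • (Rot (-t) y - Cf y t • x0)‖ ^ 2 = 1 := by
      rw [norm_smul, mul_pow, norm_sub_sq_real, norm_smul, Rot_norm, hy, norm_x0,
        real_inner_smul_right, real_inner_comm, Rot_inner_neg]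
      have h2 : ⟪Rot t x0, y⟫_ℝ = Cf y t := rfl
      rw [h2]
      simp only [norm_eq_abs, mul_one, sq_abs]
      field_simp
      linarith
    have h2 := norm_nonneg (S⁻¹ • (Rot (-t) y - Cf y t • x0))
    nlinarith
  · rw [real_inner_smul_right, inner_sub_right, real_inner_smul_right, inner_x0_self,
      Rot_inner_neg]
    have h2 : ⟪Rot t x0, y⟫_ℝ = Cf y t := rfl
    rw [h2]; ring
  · rw [real_inner_smul_right, inner_sub_right, real_inner_smul_right, Xi_self,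
      Rot_inner_neg, Rot_Xi, ← hN]
    have : 20 * l / Q * (S⁻¹ * (N - Cf y t * 0)) = 20 / Q * (l * (N / S)) := by ring
    rw [this, hrel]
    field_simp
    ring
  · field_simp
    rw [hQsq]
    ring
  · have h1 : 20 * t / Q * (Q / 20) = t := by field_simp
    have h2 : 20 * l / Q * (Q / 20) = l := by field_simp
    rw [h1, h2]
    have h3 : cos l = Cf y t := by
      rw [hl, add_comm, cos_add_two_pi, cos_df y hy]
    have h4 : sin l = S := by
      rw [hl, add_comm, sin_add_two_pi, hsin]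
    rw [h3, h4, smul_smul, mul_inv_cancel₀ hSpos.ne', one_smul, add_sub_cancel, Rot_Rot_neg]

/-- The special case: `y` lies on the orbit of `x0` or of `-x0`. -/
lemma reach_special (t l s : ℝ) (ht : |t| ≤ π) (hl : 2 * π ≤ l) (hc : cos l = s)
    (hs : sin l = 0) : Reach (s • Rot t x0) := by
  have hpi := pi_pos
  have hpi3 := pi_gt_three
  have hl0 : 0 < l := by linarith
  set Q : ℝ := √(l ^ 2 + t ^ 2 / 800) with hQ
  have hQpos : 0 < Q := sqrt_pos.2 (by positivity)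
  have hQsq : Q ^ 2 = l ^ 2 + t ^ 2 / 800 := sq_sqrt (by positivity)
  have ht2 : t ^ 2 ≤ π ^ 2 := sq_le_sq' (by linarith [(abs_le.1 ht).1]) (abs_le.1 ht).2
  have hQle : Q ≤ 2 * l := by
    rw [hQ, sqrt_le_left (by positivity)]
    nlinarith
  set c : ℝ := (Q / 20 + t / 800) / l with hcdef
  have hc1 : |c| ≤ 3/5 := by
    rw [hcdef, abs_div, abs_of_pos hl0, div_le_iff₀ hl0]
    have := abs_le.1 ht
    rw [abs_le]
    constructor <;> linarith
  have hc2 : c ^ 2 ≤ (3/5) ^ 2 := sq_le_sq' (by linarith [(abs_le.1 hc1).1]) (abs_le.1 hc1).2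
  set u : ℝ := √(1 - 25 * c ^ 2 / 9) with hu
  have husq : u ^ 2 = 1 - 25 * c ^ 2 / 9 := sq_sqrt (by linarith)
  refine ⟨Q / 20, 20 * l / Q, 20 * t / Q, !₂[4 * u / 5, 5 * c / 3, -3 * u / 5, 0],
    by positivity, ?_, ?_, ?_, ?_, ?_⟩
  · have h1 := normsq4 (!₂[4 * u / 5, 5 * c / 3, -3 * u / 5, 0] : E4)
    have h2 : (!₂[4 * u / 5, 5 * c / 3, -3 * u / 5, 0] : E4) 0 = 4 * u / 5 := rfl
    have h3 : (!₂[4 * u / 5, 5 * c / 3, -3 * u / 5, 0] : E4) 1 = 5 * c / 3 := rfl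
    have h4 : (!₂[4 * u / 5, 5 * c / 3, -3 * u / 5, 0] : E4) 2 = -3 * u / 5 := rfl
    have h5 : (!₂[4 * u / 5, 5 * c / 3, -3 * u / 5, 0] : E4) 3 = 0 := rfl
    rw [h2, h3, h4, h5] at h1
    have h6 : ‖(!₂[4 * u / 5, 5 * c / 3, -3 * u / 5, 0] : E4)‖ ^ 2 = 1 := by
      rw [h1]; nlinarith
    have h7 := norm_nonneg (!₂[4 * u / 5, 5 * c / 3, -3 * u / 5, 0] : E4)
    nlinarith
  · rw [inner4]
    show 3/5 * (4 * u / 5) + 0 * (5 * c / 3) + 4/5 * (-3 * u / 5) + 0 * 0 = 0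
    ring
  · rw [inner4, Xi_0, Xi_1, Xi_2, Xi_3]
    show 20 * t / Q = 800 * (20 * l / Q * (-0 * (4 * u / 5) + 3/5 * (5 * c / 3)
      + -2 * 0 * (-3 * u / 5) + 2 * (4/5) * 0) - 1)
    rw [hcdef]
    field_simp
    ring
  · field_simp
    rw [hQsq]
    ring
  · have h1 : 20 * t / Q * (Q / 20) = t := by field_simp
    have h2 : 20 * l / Q * (Q / 20) = l := by field_simp
    rw [h1, h2, hc, hs, zero_smul, add_zero, map_smul]

/-- Every point of the unit sphere is reached. -/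
theorem reach (y : E4) (hy : ‖y‖ = 1) : Reach y := by
  by_cases hC : ∀ t, |Cf y t| < 1
  · exact reach_generic y hy hC
  · push Not at hC
    obtain ⟨t, ht⟩ := hC
    have ht1 : |Cf y t| = 1 := le_antisymm (abs_Cf_le y hy t) ht
    obtain ⟨s, hs, hst⟩ := (show Function.Periodic (fun t => Rot t x0) (2 * π) from
      fun t => Rot_add_two_pi t x0).exists_mem_Ico (by positivity : (0 : ℝ) < 2 * π) t (-π)
    have hs' : |s| ≤ π := by
      rw [abs_le]; exact ⟨hs.1, by linarith [hs.2]⟩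
    rcases (abs_eq (by norm_num : (0 : ℝ) ≤ 1)).1 ht1 with h | h
    · have h1 : Rot t x0 = y := by
        rw [← inner_eq_one_iff_of_norm_eq_one (𝕜 := ℝ) (by rw [Rot_norm, norm_x0]) hy]
        exact h
      have h2 := reach_special s (2 * π) 1 hs' le_rfl cos_two_pi sin_two_pi
      rwa [one_smul, ← hst, h1] at h2
    · have h1 : Rot t x0 = -y := by
        rw [← inner_eq_one_iff_of_norm_eq_one (𝕜 := ℝ) (by rw [Rot_norm, norm_x0])
          (by rw [norm_neg, hy])]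
        rw [inner_neg_right]
        have : ⟪Rot t x0, y⟫_ℝ = -1 := h
        rw [this]; norm_num
      have hpi := pi_pos
      have h2 := reach_special s (π + 2 * π) (-1) hs' (by linarith)
        (by rw [cos_add_two_pi, cos_pi]) (by rw [sin_add_two_pi, sin_pi])
      rw [← hst, h1] at h2
      simpa using h2

end Pool.Agent.Mane
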