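import Mathlib

open Set Real
open scoped InnerProductSpace

namespace Pool.Agent.Mane

/-- Euclidean 4-space. -/
abbrev E4 : Type := EuclideanSpace ℝ (Fin 4)

/-- `Xi (a, b, c, d) = (-b, a, -2 d, 2 c)`. -/
noncomputable def Xi : E4 →L[ℝ] E4 :=
  LinearMap.toContinuousLinearMap
    { toFun := fun q => !₂[-q 1, q 0, -2 * q 3, 2 * q 2]
      map_add' := by
        intro x y; ext i; fin_cases i <;> simp <;> ring
      map_smul' := by
        intro m x; ext i; fin_cases i <;> simp <;> ring }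

/-- The flow of `Xi`. -/
noncomputable def Rot (t : ℝ) : E4 →L[ℝ] E4 :=
  LinearMap.toContinuousLinearMap
    { toFun := fun q => !₂[cos t * q 0 - sin t * q 1, sin t * q 0 + cos t * q 1,
        cos (2 * t) * q 2 - sin (2 * t) * q 3, sin (2 * t) * q 2 + cos (2 * t) * q 3]
      map_add' := by
        intro x y; ext i; fin_cases i <;> simp <;> ring
      map_smul' := by
        intro m x; ext i; fin_cases i <;> simp <;> ring }

lemma Xi_apply (q : E4) : Xi q = !₂[-q 1, q 0, -2 * q 3, 2 * q 2] := rfl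

lemma Rot_apply (t : ℝ) (q : E4) : Rot t q = !₂[cos t * q 0 - sin t * q 1,
    sin t * q 0 + cos t * q 1,
    cos (2 * t) * q 2 - sin (2 * t) * q 3, sin (2 * t) * q 2 + cos (2 * t) * q 3] := rfl

@[simp] lemma Xi_0 (q : E4) : Xi q 0 = -q 1 := rfl
@[simp] lemma Xi_1 (q : E4) : Xi q 1 = q 0 := rfl
@[simp] lemma Xi_2 (q : E4) : Xi q 2 = -2 * q 3 := rfl
@[simp] lemma Xi_3 (q : E4) : Xi q 3 = 2 * q 2 := rfl
@[simp] lemma Rot_0 (t : ℝ) (q : E4) : Rot t q 0 = cos t * q 0 - sin t * q 1 := rfl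
@[simp] lemma Rot_1 (t : ℝ) (q : E4) : Rot t q 1 = sin t * q 0 + cos t * q 1 := rfl
@[simp] lemma Rot_2 (t : ℝ) (q : E4) :
    Rot t q 2 = cos (2 * t) * q 2 - sin (2 * t) * q 3 := rfl
@[simp] lemma Rot_3 (t : ℝ) (q : E4) :
    Rot t q 3 = sin (2 * t) * q 2 + cos (2 * t) * q 3 := rfl

lemma inner4 (x y : E4) : ⟪x, y⟫_ℝ = x 0 * y 0 + x 1 * y 1 + x 2 * y 2 + x 3 * y 3 := by
  rw [PiLp.inner_apply, Fin.sum_univ_four]
  simp only [RCLike.inner_apply, conj_trivial]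
  ring

lemma normsq4 (x : E4) : ‖x‖ ^ 2 = x 0 ^ 2 + x 1 ^ 2 + x 2 ^ 2 + x 3 ^ 2 := by
  rw [← real_inner_self_eq_norm_sq, inner4]; ring

lemma ext4 {x y : E4} (h0 : x 0 = y 0) (h1 : x 1 = y 1) (h2 : x 2 = y 2) (h3 : x 3 = y 3) :
    x = y := by
  ext i; fin_cases i
  · exact h0
  · exact h1
  · exact h2
  · exact h3

lemma Xi_skew (x y : E4) : ⟪Xi x, y⟫_ℝ = -⟪x, Xi y⟫_ℝ := by
  rw [inner4, inner4]; simp only [Xi_0, Xi_1, Xi_2, Xi_3]; ring

lemma Xi_self (x : E4) : ⟪Xi x, x⟫_ℝ = 0 := by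
  rw [inner4]; simp only [Xi_0, Xi_1, Xi_2, Xi_3]; ring

lemma Xi_self' (x : E4) : ⟪x, Xi x⟫_ℝ = 0 := by
  rw [real_inner_comm, Xi_self]

lemma Rot_inner (t : ℝ) (x y : E4) : ⟪Rot t x, Rot t y⟫_ℝ = ⟪x, y⟫_ℝ := by
  rw [inner4, inner4]
  simp only [Rot_0, Rot_1, Rot_2, Rot_3]
  have h1 := sin_sq_add_cos_sq t
  have h2 := sin_sq_add_cos_sq (2 * t)
  linear_combination (x 0 * y 0 + x 1 * y 1) * h1 + (x 2 * y 2 + x 3 * y 3) * h2

lemma Rot_norm (t : ℝ) (x : E4) : ‖Rot t x‖ = ‖x‖ := by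
  have := Rot_inner t x x
  rw [real_inner_self_eq_norm_sq, real_inner_self_eq_norm_sq] at this
  exact (sq_eq_sq₀ (norm_nonneg _) (norm_nonneg _)).1 this

lemma Rot_Xi (t : ℝ) (x : E4) : Rot t (Xi x) = Xi (Rot t x) := by
  apply ext4 <;> simp only [Rot_0, Rot_1, Rot_2, Rot_3, Xi_0, Xi_1, Xi_2, Xi_3] <;> ring

lemma Rot_add (s t : ℝ) (x : E4) : Rot (s + t) x = Rot s (Rot t x) := by
  apply ext4 <;> simp only [Rot_0, Rot_1, Rot_2, Rot_3, mul_add, cos_add, sin_add] <;> ring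

lemma Rot_zero (x : E4) : Rot 0 x = x := by
  apply ext4 <;> simp

lemma Rot_neg_Rot (t : ℝ) (x : E4) : Rot (-t) (Rot t x) = x := by
  rw [← Rot_add]; simp [Rot_zero]

lemma Rot_Rot_neg (t : ℝ) (x : E4) : Rot t (Rot (-t) x) = x := by
  rw [← Rot_add]; simp [Rot_zero]

lemma Rot_add_two_pi (t : ℝ) (x : E4) : Rot (t + 2 * π) x = Rot t x := by
  have h : 2 * (t + 2 * π) = 2 * t + 2 * π + 2 * π := by ring
  apply ext4
  · simp only [Rot_0, cos_add_two_pi, sin_add_two_pi]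
  · simp only [Rot_1, cos_add_two_pi, sin_add_two_pi]
  · simp only [Rot_2]; rw [h, cos_add_two_pi, sin_add_two_pi, cos_add_two_pi, sin_add_two_pi]
  · simp only [Rot_3]; rw [h, cos_add_two_pi, sin_add_two_pi, cos_add_two_pi, sin_add_two_pi]

lemma Rot_inner_neg (t : ℝ) (x y : E4) : ⟪x, Rot (-t) y⟫_ℝ = ⟪Rot t x, y⟫_ℝ := by
  rw [← Rot_inner t x (Rot (-t) y), Rot_Rot_neg]

lemma hasDerivAt_E4 {f : ℝ → E4} {f' : E4} {t : ℝ}
    (h : ∀ i, HasDerivAt (fun s => f s i) (f' i) t) : HasDerivAt f f' t := by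
  rw [← hasDerivWithinAt_univ, hasDerivWithinAt_iff_hasFDerivWithinAt,
    hasFDerivWithinAt_euclidean]
  intro i
  have := (h i).hasDerivWithinAt (s := univ)
  rw [hasDerivWithinAt_iff_hasFDerivWithinAt] at this
  convert! this using 1

lemma hasDerivAt_Rot (x : E4) (t : ℝ) : HasDerivAt (fun t => Rot t x) (Xi (Rot t x)) t := by
  apply hasDerivAt_E4
  intro i
  have hc := hasDerivAt_cos t
  have hs := hasDerivAt_sin t
  have h2 : HasDerivAt (fun t : ℝ => 2 * t) 2 t := by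
    simpa using (hasDerivAt_id t).const_mul 2
  have hc2 := h2.cos
  have hs2 := h2.sin
  fin_cases i
  · simp only [Fin.zero_eta, Rot_0, Xi_0, Rot_1]
    exact ((hc.mul_const _).sub (hs.mul_const _)).congr_deriv (by ring)
  · simp only [Fin.mk_one, Rot_1, Xi_1, Rot_0]
    exact ((hs.mul_const _).add (hc.mul_const _)).congr_deriv (by ring)
  · show HasDerivAt (fun t => Rot t x 2) (Xi (Rot t x) 2) t
    simp only [Rot_2, Xi_2, Rot_3]
    exact ((hc2.mul_const _).sub (hs2.mul_const _)).congr_deriv (by ring)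
  · show HasDerivAt (fun t => Rot t x 3) (Xi (Rot t x) 3) t
    simp only [Rot_3, Xi_3, Rot_2]
    exact ((hs2.mul_const _).add (hc2.mul_const _)).congr_deriv (by ring)

end Pool.Agent.Mane
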