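import Pool.Agent.Mane.Extr
import Pool.Agent.Mane.Defs

open Set Real
open scoped InnerProductSpace ContDiff Topology Manifold

namespace Pool.Agent.Mane

/-- Euclidean 3-space, the model space of `S3`. -/
abbrev E3 : Type := EuclideanSpace ℝ (Fin 3)

instance factE4 : Fact (Module.finrank ℝ E4 = 3 + 1) := ⟨by simp⟩

/-- the inclusion `S3 → E4` -/
def iota : S3 → E4 := Subtype.val

lemma contMDiff_iota {m : WithTop ℕ∞} : ContMDiff (𝓡 3) 𝓘(ℝ, E4) m iota :=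
  contMDiff_coe_sphere (n := 3) (E := E4)

lemma norm_iota (q : S3) : ‖iota q‖ = 1 := by simp [iota]

/-- differential of the inclusion -/
noncomputable def dio (p : TangentBundle (𝓡 3) S3) : E4 :=
  mfderiv (𝓡 3) 𝓘(ℝ, E4) iota p.1 p.2

/-- Our Lagrangian on `S3`. -/
noncomputable def Lag (p : TangentBundle (𝓡 3) S3) : ℝ := LL (iota p.1) (dio p)

lemma contDiff_LL : ContDiff ℝ ω (fun z : E4 × E4 => LL z.1 z.2) := by
  unfold LL
  have h : ∀ z : E4 × E4, 1 + 800 * ‖Xi z.1‖ ^ 2 ≠ 0 := fun z => (den_pos z.1).ne'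
  have h1 : ContDiff ℝ ω (fun z : E4 × E4 => Xi z.1) := Xi.contDiff.comp contDiff_fst
  have h2 : ContDiff ℝ ω (fun z : E4 × E4 => ⟪Xi z.1, z.2⟫_ℝ) := h1.inner ℝ contDiff_snd
  have h3 : ContDiff ℝ ω (fun z : E4 × E4 => 1 + 800 * ‖Xi z.1‖ ^ 2) :=
    contDiff_const.add (contDiff_const.mul (h1.norm_sq ℝ))
  exact ((contDiff_snd.norm_sq ℝ).div_const 2).sub
    ((contDiff_const.mul ((h2.sub contDiff_const).pow 2)).div h3 h)

lemma contMDiff_dio : ContMDiff (𝓡 3).tangent 𝓘(ℝ, E4) ∞ dio := by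
  have h1 : ContMDiff (𝓡 3).tangent 𝓘(ℝ, E4).tangent ∞ (tangentMap (𝓡 3) 𝓘(ℝ, E4) iota) :=
    (contMDiff_iota (m := ∞)).contMDiff_tangentMap (by simp)
  exact (contMDiff_snd_tangentBundle_modelSpace E4 𝓘(ℝ, E4)).comp h1

lemma contMDiff_Lag : ContMDiff (𝓡 3).tangent 𝓘(ℝ, ℝ) ∞ Lag := by
  have h0 : ContMDiff (𝓡 3).tangent (𝓡 3) ∞ (fun p : TangentBundle (𝓡 3) S3 => p.1) :=
    Bundle.contMDiff_proj (TangentSpace (𝓡 3))
  have h1 : ContMDiff (𝓡 3).tangent 𝓘(ℝ, E4) ∞ (fun p : TangentBundle (𝓡 3) S3 => iota p.1) :=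
    contMDiff_iota.comp h0
  have h2 : ContMDiff (𝓡 3).tangent 𝓘(ℝ, E4 × E4) ∞
      (fun p : TangentBundle (𝓡 3) S3 => (iota p.1, dio p)) := h1.prodMk_space contMDiff_dio
  have h3 : ContMDiff 𝓘(ℝ, E4 × E4) 𝓘(ℝ, ℝ) ∞ (fun z : E4 × E4 => LL z.1 z.2) :=
    (contDiff_LL.of_le le_top).contMDiff
  have h4 : Lag = (fun z : E4 × E4 => LL z.1 z.2) ∘ (fun p => (iota p.1, dio p)) := by
    funext p; rfl
  rw [h4]
  exact ContMDiff.comp (I' := 𝓘(ℝ, E4 × E4)) h3 h2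

/-- differential of the inclusion, as a linear map -/
noncomputable def dil (x : S3) : TangentSpace (𝓡 3) x →L[ℝ] E4 :=
  mfderiv (𝓡 3) 𝓘(ℝ, E4) iota x

lemma dio_mk (x : S3) (v : TangentSpace (𝓡 3) x) : dio ⟨x, v⟩ = dil x v := rfl

lemma dil_injective (x : S3) : Function.Injective (dil x) := by
  have := injective_mvfderiv_subtypeVal_sphere (n := 3) (E := E4) x
  exact this

lemma inner_iota_dil (x : S3) (v : TangentSpace (𝓡 3) x) : ⟪iota x, dil x v⟫_ℝ = 0 := by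
  have h := range_mvfderiv_subtypeVal (n := 3) (E := E4) x
  have h2 : dil x v ∈ (Submodule.span ℝ {(x : E4)})ᗮ := by
    rw [← h]
    exact ⟨v, rfl⟩
  exact Submodule.mem_orthogonal_singleton_iff_inner_right.1 h2

/-- Fenchel's inequality. -/
lemma fenchel (q v p : E4) :
    ⟪p, v⟫_ℝ ≤ LL q v + ‖p‖ ^ 2 / 2 + 400 * (⟪Xi q, p⟫_ℝ - 1) ^ 2 := by
  have hD := den_pos q
  set X := ‖Xi q‖ ^ 2 with hX
  have h1 : ⟪Xi q, v - p⟫_ℝ ^ 2 ≤ X * ‖v - p‖ ^ 2 := by
    have := abs_real_inner_le_norm (Xi q) (v - p)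
    rw [← sq_abs, hX, ← mul_pow]
    exact pow_le_pow_left₀ (abs_nonneg _) this 2
  rw [inner_sub_right] at h1
  set a := ⟪Xi q, v⟫_ℝ with ha
  set j := ⟪Xi q, p⟫_ℝ with hj
  have h2 : ‖v - p‖ ^ 2 = ‖v‖ ^ 2 - 2 * ⟪p, v⟫_ℝ + ‖p‖ ^ 2 := by
    rw [norm_sub_sq_real, real_inner_comm]
  have hX0 : 0 ≤ X := by positivity
  set U := ‖v - p‖ ^ 2 with hU
  have hU0 : 0 ≤ U := by positivity
  -- 800 (a - j) (j - 1) ≤ U / 2 + 320000 X (j-1)^2
  have h3 : 800 * (a - j) * (j - 1) ≤ U / 2 + 320000 * X * (j - 1) ^ 2 := by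
    apply le_of_abs_le
    apply abs_le_of_sq_le_sq _ (by positivity)
    have h4 : (800 * (a - j) * (j - 1)) ^ 2 ≤ 640000 * (X * U) * (j - 1) ^ 2 := by
      have : (800 * (a - j) * (j - 1)) ^ 2 = 640000 * (a - j) ^ 2 * (j - 1) ^ 2 := by ring
      rw [this]
      have := sq_nonneg (j - 1)
      nlinarith
    have h5 : 640000 * (X * U) * (j - 1) ^ 2 ≤ (U / 2 + 320000 * X * (j - 1) ^ 2) ^ 2 := by
      nlinarith [sq_nonneg (U / 2 - 320000 * X * (j - 1) ^ 2)]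
    linarith
  have h6 : 400 * (a - 1) ^ 2 ≤ (U / 2 + 400 * (j - 1) ^ 2) * (1 + 800 * X) := by
    nlinarith
  have h7 : 400 * (a - 1) ^ 2 / (1 + 800 * X) ≤ U / 2 + 400 * (j - 1) ^ 2 := by
    rw [div_le_iff₀ hD]; exact h6
  rw [LL, ← ha, ← hX]
  linarith

lemma LL_ge (q v : E4) : -400 ≤ LL q v := by
  have := fenchel q v 0
  simp at this
  linarith

lemma norm_Xi_le (q : E4) : ‖Xi q‖ ≤ 2 * ‖q‖ := by
  have h1 := normsq4 (Xi q)
  have h2 := normsq4 q
  simp only [Xi_0, Xi_1, Xi_2, Xi_3] at h1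
  have h3 : ‖Xi q‖ ^ 2 ≤ (2 * ‖q‖) ^ 2 := by
    rw [mul_pow, h1, h2]
    nlinarith [sq_nonneg (q 0), sq_nonneg (q 1)]
  exact le_of_sq_le_sq h3 (by positivity)

lemma LL_line (q V W : E4) (s : ℝ) : LL q (V + s • W) = LL q V
    + (⟪V, W⟫_ℝ - 800 * (⟪Xi q, V⟫_ℝ - 1) * ⟪Xi q, W⟫_ℝ / (1 + 800 * ‖Xi q‖ ^ 2)) * s
    + (‖W‖ ^ 2 / 2 - 400 * ⟪Xi q, W⟫_ℝ ^ 2 / (1 + 800 * ‖Xi q‖ ^ 2)) * s ^ 2 := by
  have hD := den_pos q
  rw [LL, LL, norm_add_sq_real, inner_add_right, real_inner_smul_right, real_inner_smul_right,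
    norm_smul, mul_pow, norm_eq_abs, sq_abs]
  field_simp
  ring

lemma iteratedDeriv_two_quadratic (A B C : ℝ) :
    iteratedDeriv 2 (fun s : ℝ => A + B * s + C * s ^ 2) 0 = 2 * C := by
  rw [iteratedDeriv_succ, iteratedDeriv_one]
  have h1 : deriv (fun s : ℝ => A + B * s + C * s ^ 2) = fun s => B + 2 * C * s := by
    funext s
    have h : HasDerivAt (fun s : ℝ => A + B * s + C * s ^ 2) (B + 2 * C * s) s := by
      have h2 := (((hasDerivAt_id s).const_mul B).const_add A).add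
        (((hasDerivAt_id s).pow 2).const_mul C)
      refine h2.congr_deriv ?_
      simp
      ring
    exact h.deriv
  rw [h1]
  have h : HasDerivAt (fun s : ℝ => B + 2 * C * s) (2 * C) 0 := by
    have h2 := ((hasDerivAt_id (0 : ℝ)).const_mul (2 * C)).const_add B
    refine h2.congr_deriv ?_
    ring
  exact h.deriv

lemma Lag_convex (x : S3) (v w : E3) (hw : w ≠ 0) :
    0 < iteratedDeriv 2 (fun s : ℝ => Lag (tvec x (v + s • w : E3))) 0 := by
  have h1 : (fun s : ℝ => Lag (tvec x (v + s • w : E3))) = fun s => LL (iota x) (dil x v)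
    + (⟪dil x v, dil x w⟫_ℝ - 800 * (⟪Xi (iota x), dil x v⟫_ℝ - 1) * ⟪Xi (iota x), dil x w⟫_ℝ
      / (1 + 800 * ‖Xi (iota x)‖ ^ 2)) * s
    + (‖dil x w‖ ^ 2 / 2 - 400 * ⟪Xi (iota x), dil x w⟫_ℝ ^ 2 / (1 + 800 * ‖Xi (iota x)‖ ^ 2))
      * s ^ 2 := by
    funext s
    rw [← LL_line, Lag]
    show LL (iota x) (dil x (v + s • w : E3)) = _
    have h2 : dil x (v + s • w : E3) = dil x v + s • dil x w := by
      have h3 := map_add (dil x) v (s • w : E3)
      have h4 := map_smul (dil x) s w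
      exact h3.trans (congrArg _ h4)
    rw [h2]
  rw [h1, iteratedDeriv_two_quadratic]
  have hD := den_pos (iota x)
  have hW : dil x w ≠ 0 := by
    intro h
    apply hw
    apply dil_injective x
    exact h.trans (map_zero (dil x)).symm
  have hW2 : 0 < ‖dil x w‖ ^ 2 := by positivity
  have h2 : ⟪Xi (iota x), dil x w⟫_ℝ ^ 2 ≤ ‖Xi (iota x)‖ ^ 2 * ‖dil x w‖ ^ 2 := by
    have := abs_real_inner_le_norm (Xi (iota x)) (dil x w)
    rw [← sq_abs, ← mul_pow]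
    exact pow_le_pow_left₀ (abs_nonneg _) this 2
  have h3 : 400 * ⟪Xi (iota x), dil x w⟫_ℝ ^ 2 / (1 + 800 * ‖Xi (iota x)‖ ^ 2)
      < ‖dil x w‖ ^ 2 / 2 := by
    rw [div_lt_iff₀ hD]
    nlinarith
  linarith

/-- The quadratic form of the round metric. -/
noncomputable def roundForm (p : TangentBundle (𝓡 3) S3) : ℝ := ‖dio p‖ ^ 2

lemma isRiemannianForm_round : IsRiemannianForm (E := E3) roundForm where
  contMDiff := by
    have h1 : ContMDiff 𝓘(ℝ, E4) 𝓘(ℝ, ℝ) ∞ (fun v : E4 => ‖v‖ ^ 2) :=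
      (contDiff_norm_sq ℝ).contMDiff
    exact ContMDiff.comp (I' := 𝓘(ℝ, E4)) h1 contMDiff_dio
  quadratic := by
    intro x
    let B : E3 →ₗ[ℝ] E3 →ₗ[ℝ] ℝ := LinearMap.mk₂ ℝ (fun v w : E3 => ⟪dil x v, dil x w⟫_ℝ)
      (fun a b c => by
        have h : dil x (a + b : E3) = dil x a + dil x b := map_add (dil x) a b
        rw [h, inner_add_left])
      (fun r a b => by
        have h : dil x (r • a : E3) = r • dil x a := map_smul (dil x) r a
        rw [h, real_inner_smul_left]; rfl)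
      (fun a b c => by
        have h : dil x (b + c : E3) = dil x b + dil x c := map_add (dil x) b c
        rw [h, inner_add_right])
      (fun r a b => by
        have h : dil x (r • b : E3) = r • dil x b := map_smul (dil x) r b
        rw [h, real_inner_smul_right]; rfl)
    refine ⟨LinearMap.BilinMap.toQuadraticMap B, fun v => ?_⟩
    rw [LinearMap.BilinMap.toQuadraticMap_apply]
    show ‖dil x v‖ ^ 2 = ⟪dil x v, dil x v⟫_ℝ
    rw [real_inner_self_eq_norm_sq]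
  pos := by
    intro x v hv
    have hW : dil x v ≠ 0 := by
      intro h
      apply hv
      apply dil_injective x
      exact h.trans (map_zero (dil x)).symm
    show 0 < ‖dil x v‖ ^ 2
    positivity

lemma isTonelli_Lag : IsTonelli (E := E3) Lag where
  contMDiff := contMDiff_Lag.of_le (by norm_cast)
  convex := Lag_convex
  superlinear := by
    refine ⟨roundForm, isRiemannianForm_round, fun K => ?_⟩
    set A : ℝ := |K| + 1 with hA
    have hA0 : 0 < A := by positivity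
    refine ⟨A ^ 2 / 2 + 400 * (2 * A + 1) ^ 2, fun p hp => ?_⟩
    have hs : √(roundForm p) = ‖dio p‖ := by
      rw [roundForm, sqrt_sq (norm_nonneg _)]
    rw [hs] at hp ⊢
    set v := dio p with hv
    set q := iota p.1 with hq
    have hvpos : 0 < ‖v‖ := lt_of_lt_of_le (by positivity) hp
    have hf := fenchel q v ((A / ‖v‖) • v)
    have h1 : ⟪(A / ‖v‖) • v, v⟫_ℝ = A * ‖v‖ := by
      rw [real_inner_smul_left, real_inner_self_eq_norm_sq]
      field_simp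
    have h2 : ‖(A / ‖v‖) • v‖ = A := by
      rw [norm_smul, norm_div, norm_norm, norm_eq_abs, abs_of_pos hA0]
      field_simp
    have h3 : |⟪Xi q, (A / ‖v‖) • v⟫_ℝ| ≤ 2 * A := by
      refine (abs_real_inner_le_norm _ _).trans ?_
      rw [h2]
      have := norm_Xi_le q
      rw [hq, norm_iota] at this
      nlinarith
    have h4 : (⟪Xi q, (A / ‖v‖) • v⟫_ℝ - 1) ^ 2 ≤ (2 * A + 1) ^ 2 := by
      apply sq_le_sq'
      · linarith [(abs_le.1 h3).1]
      · linarith [(abs_le.1 h3).2]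
    rw [h1, h2] at hf
    have h5 : LL q v = Lag p := rfl
    rw [h5] at hf
    have h6 : K ≤ A - 1 := by rw [hA]; linarith [le_abs_self K]
    nlinarith

end Pool.Agent.Mane
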